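import Mathlib
import Pool.Agent.H713R2.Area
import Pool.Agent.W677.MarM

set_option autoImplicit false

/-!
# The square norm of an analytic function on a disc in terms of its Taylor coefficients
-/

open Complex Filter Topology Metric Set MeasureTheory

namespace Pool.Agent.Y488.TY

open Pool.Agent.H713R2 Pool.Agent.W677.Mar

/-- circle means, on `(-π, π)` -/
theorem circ {G : ℂ → ℂ} (hG : DifferentiableOn ℂ G (ball 0 1)) {r : ℝ} (hr0 : 0 ≤ r)
    (hr1 : r < 1) : HasSum (fun j => 2 * Real.pi * (‖tc G j‖ ^ 2 * (r ^ 2) ^ j))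
      (∫ θ in (-Real.pi)..Real.pi, ‖G (circleMap 0 r θ)‖ ^ 2) := by
  have h1 := mean_sq (f := G) (a := tc G) (fun z hz => hasSum_tc hG hz) hr0 hr1
  have hper : Function.Periodic (fun θ : ℝ => ‖G (circleMap 0 r θ)‖ ^ 2) (2 * Real.pi) := by
    intro θ
    have h2 : circleMap 0 r (θ + 2 * Real.pi) = circleMap 0 r θ := periodic_circleMap 0 r θ
    simp only [h2]
  have h4 := hper.intervalIntegral_add_eq (-Real.pi) 0
  rw [show -Real.pi + 2 * Real.pi = Real.pi by ring, zero_add] at h4
  rw [h4]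
  have h5 := h1.mul_left (2 * Real.pi)
  rw [← mul_assoc, mul_inv_cancel₀ (by positivity), one_mul] at h5
  exact h5

theorem polar_energy {G : ℂ → ℂ} (hG : DifferentiableOn ℂ G (ball 0 1)) {R : ℝ} (hR0 : 0 < R)
    (hR1 : R ≤ 1) : ∫⁻ x in ball (0 : ℂ) R, ENNReal.ofReal (‖G x‖ ^ 2) =
      ∑' k : ℕ, ENNReal.ofReal (2 * Real.pi * ‖tc G k‖ ^ 2 * (R ^ (2 * k + 2) / (2 * k + 2))) := by
  have hpi := Real.pi_pos
  set S : Set (ℝ × ℝ) := Ioo (0 : ℝ) R ×ˢ Ioo (-Real.pi) Real.pi with hS
  have hSm : MeasurableSet S := measurableSet_Ioo.prod measurableSet_Ioo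
  have hST : S ⊆ polarCoord.target := by
    rw [polarCoord_target]
    apply prod_mono _ subset_rfl
    intro r hr
    exact hr.1
  have hTm : MeasurableSet polarCoord.target := polarCoord.open_target.measurableSet
  have h1 : ∫⁻ x in ball (0 : ℂ) R, ENNReal.ofReal (‖G x‖ ^ 2) =
      ∫⁻ q in S, ENNReal.ofReal (q.1 * ‖G (circleMap 0 q.1 q.2)‖ ^ 2) := by
    rw [← lintegral_indicator measurableSet_ball, ← Complex.lintegral_comp_polarCoord_symm,
      ← lintegral_indicator hSm, ← lintegral_indicator hTm]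
    congr 1
    funext q
    by_cases hq : q ∈ polarCoord.target
    · rw [indicator_of_mem hq]
      have hq0 : 0 < q.1 := by
        rw [polarCoord_target] at hq
        exact hq.1
      have hn : ‖circleMap 0 q.1 q.2‖ = q.1 := by
        rw [norm_circleMap_zero, abs_of_pos hq0]
      rw [polar_eq_circleMap]
      by_cases hR : q.1 < R
      · have hqS : q ∈ S := by
          rw [polarCoord_target] at hq
          exact ⟨⟨hq0, hR⟩, hq.2⟩
        have hqb : circleMap 0 q.1 q.2 ∈ ball (0 : ℂ) R := by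
          rw [mem_ball_zero_iff, hn]; exact hR
        rw [indicator_of_mem hqS, indicator_of_mem hqb, smul_eq_mul, ← ENNReal.ofReal_mul hq0.le]
      · have hqS : q ∉ S := fun h => hR h.1.2
        have hqb : circleMap 0 q.1 q.2 ∉ ball (0 : ℂ) R := by
          rw [mem_ball_zero_iff, hn]; exact hR
        rw [indicator_of_notMem hqS, indicator_of_notMem hqb, smul_zero]
    · rw [indicator_of_notMem hq, indicator_of_notMem (fun h => hq (hST h))]
  rw [h1]
  have hmem : ∀ q ∈ S, circleMap 0 q.1 q.2 ∈ ball (0 : ℂ) 1 := by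
    intro q hq
    rw [mem_ball_zero_iff, norm_circleMap_zero, abs_of_pos hq.1.1]
    exact lt_of_lt_of_le hq.1.2 hR1
  have hcont : ContinuousOn (fun q : ℝ × ℝ => q.1 * ‖G (circleMap 0 q.1 q.2)‖ ^ 2) S := by
    apply ContinuousOn.mul continuousOn_fst
    apply ContinuousOn.pow
    apply ContinuousOn.norm
    apply hG.continuousOn.comp
    · apply Continuous.continuousOn
      unfold circleMap
      fun_prop
    · intro q hq
      exact hmem q hq
  have hae : AEMeasurable (fun q : ℝ × ℝ => ENNReal.ofReal (q.1 * ‖G (circleMap 0 q.1 q.2)‖ ^ 2))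
      (((volume : Measure ℝ).prod (volume : Measure ℝ)).restrict S) :=
    (hcont.aemeasurable hSm).ennreal_ofReal
  rw [Measure.volume_eq_prod, hS, setLIntegral_prod _ hae]
  have h2 : ∀ r ∈ Ioo (0 : ℝ) R,
      ∫⁻ θ in Ioo (-Real.pi) Real.pi, ENNReal.ofReal (r * ‖G (circleMap 0 r θ)‖ ^ 2) =
      ∑' k : ℕ, ENNReal.ofReal (2 * Real.pi * ‖tc G k‖ ^ 2 * r ^ (2 * k + 1)) := by
    intro r hr
    have hr1 : r < 1 := lt_of_lt_of_le hr.2 hR1
    have hc2 : Continuous (fun θ : ℝ => r * ‖G (circleMap 0 r θ)‖ ^ 2) := by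
      apply continuous_const.mul
      apply Continuous.pow
      apply Continuous.norm
      apply hG.continuousOn.comp_continuous (continuous_circleMap 0 r)
      intro θ
      rw [mem_ball_zero_iff, norm_circleMap_zero, abs_of_pos hr.1]
      exact hr1
    have h5 : ∫⁻ θ in Ioo (-Real.pi) Real.pi, ENNReal.ofReal (r * ‖G (circleMap 0 r θ)‖ ^ 2) =
        ENNReal.ofReal (∫ θ in (-Real.pi)..Real.pi, r * ‖G (circleMap 0 r θ)‖ ^ 2) := by
      rw [restrict_Ioo_eq_restrict_Ioc, intervalIntegral.integral_of_le (by linarith)]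
      rw [ofReal_integral_eq_lintegral_ofReal]
      · exact (hc2.intervalIntegrable _ _).1
      · exact Filter.Eventually.of_forall fun θ => mul_nonneg hr.1.le (by positivity)
    rw [h5, intervalIntegral.integral_const_mul]
    have h6 := (circ hG hr.1.le hr1).mul_left r
    have h7 : (fun k : ℕ => r * (2 * Real.pi * (‖tc G k‖ ^ 2 * (r ^ 2) ^ k))) =
        fun k : ℕ => 2 * Real.pi * ‖tc G k‖ ^ 2 * r ^ (2 * k + 1) := by
      funext k
      rw [← pow_mul]; ring
    rw [h7] at h6
    rw [← h6.tsum_eq, ENNReal.ofReal_tsum_of_nonneg _ h6.summable]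
    intro k
    have := hr.1
    positivity
  rw [setLIntegral_congr_fun measurableSet_Ioo (fun r hr => h2 r hr), lintegral_tsum]
  · congr 1
    funext k
    have hc3 : Continuous (fun r : ℝ => 2 * Real.pi * ‖tc G k‖ ^ 2 * r ^ (2 * k + 1)) := by fun_prop
    have h8 : ∫⁻ r in Ioo (0 : ℝ) R, ENNReal.ofReal (2 * Real.pi * ‖tc G k‖ ^ 2 * r ^ (2 * k + 1)) =
        ENNReal.ofReal (∫ r in (0 : ℝ)..R, 2 * Real.pi * ‖tc G k‖ ^ 2 * r ^ (2 * k + 1)) := by
      rw [restrict_Ioo_eq_restrict_Ioc, intervalIntegral.integral_of_le hR0.le]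
      rw [ofReal_integral_eq_lintegral_ofReal]
      · exact (hc3.intervalIntegrable _ _).1
      · rw [Filter.EventuallyLE, ae_restrict_iff' measurableSet_Ioc]
        refine Filter.Eventually.of_forall fun r hr => ?_
        have := hr.1
        simp only [Pi.zero_apply]
        positivity
    rw [h8, intervalIntegral.integral_const_mul, integral_pow]
    congr 2
    push_cast
    rw [zero_pow (by omega), sub_zero, show 2 * k + 1 + 1 = 2 * k + 2 by ring]
    congr 1
    ring
  · intro k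
    exact (Measurable.ennreal_ofReal (by fun_prop)).aemeasurable

/-- the Dirichlet energy on a disc -/
theorem energy_eq {F : ℂ → ℂ} (hF : DifferentiableOn ℂ F (ball 0 1)) {R : ℝ} (hR0 : 0 < R)
    (hR1 : R ≤ 1) : ∫⁻ x in ball (0 : ℂ) R, ENNReal.ofReal (‖deriv F x‖ ^ 2) =
      ∑' k : ℕ, ENNReal.ofReal (Real.pi * k * ‖tc F k‖ ^ 2 * R ^ (2 * k)) := by
  have hG : DifferentiableOn ℂ (deriv F) (ball 0 1) := hF.deriv isOpen_ball
  rw [polar_energy hG hR0 hR1, tsum_eq_zero_add' (f := fun k : ℕ =>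
    ENNReal.ofReal (Real.pi * k * ‖tc F k‖ ^ 2 * R ^ (2 * k))) ENNReal.summable]
  simp only [Nat.cast_zero, mul_zero, zero_mul, ENNReal.ofReal_zero, zero_add]
  congr 1
  funext k
  congr 1
  rw [tc_deriv, norm_mul, show ((k : ℂ) + 1) = ((k + 1 : ℕ) : ℂ) by push_cast; rfl,
    Complex.norm_natCast]
  push_cast
  rw [show 2 * (k + 1) = 2 * k + 2 by ring]
  have : (k : ℝ) + 1 ≠ 0 := by positivity
  rw [show (2 : ℝ) * k + 2 = 2 * (k + 1) by ring]
  field_simp

end Pool.Agent.Y488.TY
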