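import Mathlib
import Pool.Agent.Y272.TY.Stm
import Pool.Agent.Y488.TY.En

set_option autoImplicit false

/-!
# Coefficients from the energy
-/

open Complex Filter Topology Metric Set MeasureTheory

namespace Pool.Agent.Y488.TY.Coef

open Pool.Agent.H712R2 Pool.Agent.H713R2 Pool.Agent.W677.Mar Pool.Agent.Y272.TY Pool.Agent.Y488.TY

theorem t (hE : St_Energy) : St_Coef := by
  intro d hd
  obtain ⟨C, hC, hE⟩ := hE d hd
  refine ⟨C * Real.exp 6 / Real.pi, by positivity, ?_⟩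
  intro β L hβ hL n m s F hs0 hs1 hF hFL
  have hpi := Real.pi_pos
  have hd0 : (0 : ℝ) < d := by
    have : 0 < d := by omega
    exact_mod_cast this
  have hDD : 0 < DD d := by
    unfold DD; positivity
  set N : ℝ := (d : ℝ) ^ (n + m + 1) with hN
  have hN0 : 0 < N := by positivity
  set R : ℝ := Real.exp (-(3 / N)) with hR
  have hR0 : 0 < R := Real.exp_pos _
  have hR1 : R ≤ 1 := by
    rw [hR, ← Real.exp_zero]
    apply Real.exp_le_exp.mpr
    have : 0 < 3 / N := by positivity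
    linarith
  have h1 := hE β L hβ hL n (m + 1) s hs0 hs1
  have h2 : ∫⁻ x in ball (0 : ℂ) R, ENNReal.ofReal (‖deriv F x‖ ^ 2) ≤
      ENNReal.ofReal (C * (d : ℝ) ^ n * ((m : ℝ) + 2) * DD d ^ (2 * s * ((m : ℝ) + 1))) := by
    have h3 : ∫⁻ x in ball (0 : ℂ) R, ENNReal.ofReal (‖deriv F x‖ ^ 2) ≤
        ∫⁻ x in ball (0 : ℂ) R,
          ENNReal.ofReal (‖deriv (L n) x‖ ^ 2 * ‖BB d β n x‖ ^ (-(2 * s))) := by
      apply setLIntegral_mono' measurableSet_ball
      intro x hx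
      exact ENNReal.ofReal_le_ofReal (hFL x (ball_subset_ball hR1 hx))
    refine h3.trans ?_
    have h4 : (d : ℝ) ^ (n + (m + 1)) = N := by rw [hN, add_assoc]
    rw [h4] at h1
    push_cast at h1
    rw [show (m : ℝ) + 1 + 1 = m + 2 by ring] at h1
    exact h1
  rw [energy_eq hF hR0 hR1] at h2
  have h3 := (ENNReal.sum_le_tsum (f := fun k : ℕ =>
    ENNReal.ofReal (Real.pi * k * ‖tc F k‖ ^ 2 * R ^ (2 * k)))
    (Finset.Ico (d ^ (n + m)) (d ^ (n + m + 1)))).trans h2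
  rw [← ENNReal.ofReal_sum_of_nonneg (fun k _ => by positivity),
    ENNReal.ofReal_le_ofReal_iff (by positivity)] at h3
  have h4 : ∑ k ∈ Finset.Ico (d ^ (n + m)) (d ^ (n + m + 1)),
      Real.pi * (d : ℝ) ^ (n + m) * Real.exp (-6) * ‖tc F k‖ ^ 2 ≤
      C * (d : ℝ) ^ n * ((m : ℝ) + 2) * DD d ^ (2 * s * ((m : ℝ) + 1)) := by
    refine le_trans (Finset.sum_le_sum fun k hk => ?_) h3
    rw [Finset.mem_Ico] at hk
    have hk1 : (d : ℝ) ^ (n + m) ≤ k := by exact_mod_cast hk.1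
    have hk2 : (k : ℝ) ≤ N := by
      rw [hN]
      exact_mod_cast hk.2.le
    have h5 : Real.exp (-6) ≤ R ^ (2 * k) := by
      rw [hR, ← Real.exp_nat_mul]
      apply Real.exp_le_exp.mpr
      push_cast
      have : (k : ℝ) / N ≤ 1 := by rw [div_le_one hN0]; exact hk2
      have h6 : 2 * (k : ℝ) * -(3 / N) = -6 * (k / N) := by ring
      rw [h6]
      linarith
    have h6 : 0 ≤ ‖tc F k‖ ^ 2 := by positivity
    calc Real.pi * (d : ℝ) ^ (n + m) * Real.exp (-6) * ‖tc F k‖ ^ 2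
        = (Real.pi * ‖tc F k‖ ^ 2) * ((d : ℝ) ^ (n + m) * Real.exp (-6)) := by ring
      _ ≤ (Real.pi * ‖tc F k‖ ^ 2) * (k * R ^ (2 * k)) := by
          apply mul_le_mul_of_nonneg_left _ (by positivity)
          exact mul_le_mul hk1 h5 (by positivity) (by positivity)
      _ = _ := by ring
  rw [← Finset.mul_sum] at h4
  have h5 : Real.exp (-6) * Real.exp 6 = 1 := by
    rw [← Real.exp_add]; simp
  rw [pow_add] at h4
  have hdn : 0 < (d : ℝ) ^ n := by positivity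
  have hdm : 0 < (d : ℝ) ^ m := by positivity
  set T₁ := ∑ k ∈ Finset.Ico (d ^ (n + m)) (d ^ (n + m + 1)), ‖tc F k‖ ^ 2 with hT
  set Q := DD d ^ (2 * s * ((m : ℝ) + 1)) with hQ
  have h6 : (d : ℝ) ^ n * (Real.pi * (d : ℝ) ^ m * Real.exp (-6) * T₁) ≤
      (d : ℝ) ^ n * (C * ((m : ℝ) + 2) * Q) := by
    calc _ = Real.pi * ((d : ℝ) ^ n * (d : ℝ) ^ m) * Real.exp (-6) * T₁ := by ring
      _ ≤ _ := h4
      _ = _ := by ring
  have h7 := le_of_mul_le_mul_left h6 hdn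
  rw [le_div_iff₀ hdm]
  have h8 : Real.exp 6 * (Real.pi * (d : ℝ) ^ m * Real.exp (-6) * T₁) ≤
      Real.exp 6 * (C * ((m : ℝ) + 2) * Q) := mul_le_mul_of_nonneg_left h7 (Real.exp_pos _).le
  have h9 : Real.exp 6 * (Real.pi * (d : ℝ) ^ m * Real.exp (-6) * T₁) =
      Real.pi * (T₁ * (d : ℝ) ^ m) := by
    calc _ = (Real.exp (-6) * Real.exp 6) * (Real.pi * (T₁ * (d : ℝ) ^ m)) := by ring
      _ = _ := by rw [h5, one_mul]
  rw [h9] at h8
  calc T₁ * (d : ℝ) ^ m = (Real.pi * (T₁ * (d : ℝ) ^ m)) / Real.pi := by field_simp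
    _ ≤ (Real.exp 6 * (C * ((m : ℝ) + 2) * Q)) / Real.pi :=
        div_le_div_of_nonneg_right h8 hpi.le
    _ = _ := by ring

end Pool.Agent.Y488.TY.Coef
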