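import Mathlib
import Pool.Agent.Y272.TY.Stm
import Pool.Agent.Y488.TY.En

set_option autoImplicit false

/-!
# The Dirichlet energy of the logarithms
-/

open Complex Filter Topology Metric Set MeasureTheory

namespace Pool.Agent.Y488.TY.Energy

open Pool.Agent.H712R2 Pool.Agent.H713R2 Pool.Agent.W677.Mar Pool.Agent.Y272.TY Pool.Agent.Y488.TY

theorem log_two_le : 2 * Real.log 2 ≤ 1.3864 := by
  have := Real.log_two_lt_d9
  linarith

/-- the bound for the logarithm on the inner disc -/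
theorem inner_bound {d : ℕ} (hd : 2 ≤ d) {β : ℂ → ℂ} {L : ℕ → ℂ → ℂ} (hL : IsLog d β L) (n : ℕ)
    {x : ℂ} (hx : ‖x‖ ≤ Real.exp (-(1 / (d : ℝ) ^ n))) : ‖L n x‖ ≤ 1 := by
  have hd0 : (0 : ℝ) < d := by
    have : 0 < d := by omega
    exact_mod_cast this
  set N : ℝ := (d : ℝ) ^ n with hN
  have hN0 : 0 < N := by positivity
  have hx1 : ‖x‖ < 1 := by
    refine lt_of_le_of_lt hx ?_
    rw [Real.exp_lt_one_iff]
    have : 0 < 1 / N := by positivity
    linarith
  have hxb : x ∈ ball (0 : ℂ) 1 := by rw [mem_ball_zero_iff]; exact hx1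
  refine (hL.bound n x hxb).trans ?_
  have hK : d ^ n ≤ d ^ (n + 1) - 1 := by
    have h1 : 1 ≤ d ^ n := Nat.one_le_pow _ _ (by omega)
    have h2 : d ^ n * 2 ≤ d ^ (n + 1) := by
      rw [pow_succ]; exact Nat.mul_le_mul_left _ hd
    omega
  have h1 : ‖x‖ ^ (d ^ (n + 1) - 1) ≤ Real.exp (-1) := by
    calc ‖x‖ ^ (d ^ (n + 1) - 1) ≤ ‖x‖ ^ (d ^ n) :=
          pow_le_pow_of_le_one (norm_nonneg _) hx1.le hK
      _ ≤ (Real.exp (-(1 / N))) ^ (d ^ n) := pow_le_pow_left₀ (norm_nonneg _) hx _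
      _ = Real.exp (-1) := by
          rw [← Real.exp_nat_mul]
          congr 1
          push_cast
          rw [← hN]
          field_simp
  have h2 : Real.exp (-1) < 0.3679 := by
    rw [Real.exp_neg]
    have h3 := Real.exp_one_gt_d9
    rw [inv_lt_comm₀ (Real.exp_pos 1) (by norm_num)]
    refine lt_trans ?_ h3
    norm_num
  have h3 : 0 ≤ ‖x‖ ^ (d ^ (n + 1) - 1) := by positivity
  set t := ‖x‖ ^ (d ^ (n + 1) - 1) with ht
  have h4 := log_two_le
  rw [div_le_one (by linarith)]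
  nlinarith

theorem sq_coef {f : ℂ → ℂ} (hf : DifferentiableOn ℂ f (ball 0 1)) {r : ℝ} (hr0 : 0 ≤ r)
    (hr1 : r < 1) (hb : ∀ z, ‖z‖ = r → ‖f z‖ ≤ 1) (K : Finset ℕ) :
    ∑ j ∈ K, ‖tc f j‖ ^ 2 * (r ^ 2) ^ j ≤ 1 := by
  have h1 := mean_sq (f := f) (a := tc f) (fun z hz => hasSum_tc hf hz) hr0 hr1
  refine (sum_le_hasSum K (fun _ _ => by positivity) h1).trans ?_
  have h2 : ∫ θ in (0 : ℝ)..(2 * Real.pi), ‖f (pt r θ)‖ ^ 2 ≤ ∫ θ in (0 : ℝ)..(2 * Real.pi), (1 : ℝ) := by
    apply intervalIntegral.integral_mono_on (by positivity)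
    · apply Continuous.intervalIntegrable
      apply Continuous.pow
      apply Continuous.norm
      apply hf.continuousOn.comp_continuous (continuous_pt r)
      intro θ
      rw [mem_ball_zero_iff, norm_pt r θ hr0]
      exact hr1
    · exact _root_.intervalIntegrable_const
    · intro θ _
      have h3 := hb (pt r θ) (norm_pt r θ hr0)
      have h4 := norm_nonneg (f (pt r θ))
      nlinarith
  rw [intervalIntegral.integral_const, smul_eq_mul, mul_one, sub_zero] at h2
  rw [inv_mul_le_iff₀ (by positivity), mul_one]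
  exact h2

/-- energy on the inner disc -/
theorem inner {f : ℂ → ℂ} (hf : DifferentiableOn ℂ f (ball 0 1)) {N : ℝ} (hN : 0 < N)
    (hb : ∀ z, ‖z‖ = Real.exp (-(1 / N)) → ‖f z‖ ≤ 1) :
    ∫⁻ x in ball (0 : ℂ) (Real.exp (-(3 / N))), ENNReal.ofReal (‖deriv f x‖ ^ 2) ≤
      ENNReal.ofReal (Real.pi * N) := by
  have hpi := Real.pi_pos
  have hR1 : Real.exp (-(3 / N)) ≤ 1 := by
    rw [← Real.exp_zero]
    apply Real.exp_le_exp.mpr
    have : 0 < 3 / N := by positivity
    linarith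
  have hr1 : Real.exp (-(1 / N)) < 1 := by
    rw [Real.exp_lt_one_iff]
    have : 0 < 1 / N := by positivity
    linarith
  rw [energy_eq hf (Real.exp_pos _) hR1]
  rw [ENNReal.tsum_eq_iSup_sum]
  apply iSup_le
  intro K
  rw [← ENNReal.ofReal_sum_of_nonneg (fun k _ => by positivity)]
  apply ENNReal.ofReal_le_ofReal
  have h1 := sq_coef hf (Real.exp_pos _).le hr1 hb K
  calc ∑ k ∈ K, Real.pi * k * ‖tc f k‖ ^ 2 * Real.exp (-(3 / N)) ^ (2 * k)
      ≤ ∑ k ∈ K, (Real.pi * N) * (‖tc f k‖ ^ 2 * (Real.exp (-(1 / N)) ^ 2) ^ k) := by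
        apply Finset.sum_le_sum
        intro k _
        have e1 : Real.exp (-(3 / N)) ^ (2 * k) =
            (Real.exp (-(1 / N)) ^ 2) ^ k * Real.exp (-(4 * (k / N))) := by
          rw [← Real.exp_nat_mul, ← Real.exp_nat_mul, ← Real.exp_nat_mul, ← Real.exp_add]
          congr 1
          push_cast
          ring
        have e2 : (k : ℝ) * Real.exp (-(4 * (k / N))) ≤ N := by
          have h3 : (k : ℝ) / N ≤ Real.exp (4 * (k / N)) := by
            have h4 := Real.add_one_le_exp (4 * ((k : ℝ) / N))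
            have h5 : 0 ≤ (k : ℝ) / N := by positivity
            linarith
          rw [Real.exp_neg, ← div_eq_mul_inv, div_le_iff₀ (Real.exp_pos _)]
          rw [div_le_iff₀ hN] at h3
          linarith
        rw [e1]
        have h6 : 0 ≤ ‖tc f k‖ ^ 2 * (Real.exp (-(1 / N)) ^ 2) ^ k := by positivity
        calc Real.pi * k * ‖tc f k‖ ^ 2 * ((Real.exp (-(1 / N)) ^ 2) ^ k *
              Real.exp (-(4 * (k / N))))
            = Real.pi * (k * Real.exp (-(4 * (k / N)))) *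
              (‖tc f k‖ ^ 2 * (Real.exp (-(1 / N)) ^ 2) ^ k) := by ring
          _ ≤ Real.pi * N * (‖tc f k‖ ^ 2 * (Real.exp (-(1 / N)) ^ 2) ^ k) := by
              apply mul_le_mul_of_nonneg_right _ h6
              exact mul_le_mul_of_nonneg_left e2 hpi.le
    _ = (Real.pi * N) * ∑ k ∈ K, ‖tc f k‖ ^ 2 * (Real.exp (-(1 / N)) ^ 2) ^ k := by
        rw [Finset.mul_sum]
    _ ≤ (Real.pi * N) * 1 := mul_le_mul_of_nonneg_left h1 (by positivity)
    _ = _ := mul_one _

/-- the logarithmic derivative -/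
theorem logder {d : ℕ} (hd : 2 ≤ d) {β : ℂ → ℂ} (hβ : IsBeta d β) {L : ℕ → ℂ → ℂ}
    (hL : IsLog d β L) (n : ℕ) {x : ℂ} (hx : x ∈ ball (0 : ℂ) 1) (hx0 : x ≠ 0)
    (hg : P d (n + 1) (cc β x) ≠ 0) :
    deriv (L n) x = ((d ^ n : ℕ) : ℂ) / x +
      deriv (fun y => P d (n + 1) (cc β y)) x / P d (n + 1) (cc β x) := by
  have hnx : ball (0 : ℂ) 1 ∈ 𝓝 x := isOpen_ball.mem_nhds hx
  have hLd : DifferentiableAt ℂ (L n) x := (hL.diff n).differentiableAt hnx
  have hβd : DifferentiableAt ℂ β x := hβ.diff.differentiableAt hnx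
  have hcc : DifferentiableAt ℂ (cc β) x := by
    unfold cc
    exact (differentiableAt_inv_iff.mpr hx0).mul hβd
  have hgd : DifferentiableAt ℂ (fun y => P d (n + 1) (cc β y)) x := by
    have h1 : (fun y => P d (n + 1) (cc β y)) = fun y => (PP d (n + 1)).eval (cc β y) := by
      funext y
      rw [eval_PP]
    rw [h1]
    exact (PP d (n + 1)).differentiable.differentiableAt.comp x hcc
  have h1 : (fun y => Complex.exp (L n y)) =ᶠ[𝓝 x] fun y => y ^ (d ^ n) * P d (n + 1) (cc β y) := by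
    have hne : ∀ᶠ y in 𝓝 x, y ≠ 0 := isOpen_ne.mem_nhds hx0
    filter_upwards [hnx, hne] with y hy hy0
    rw [hL.exp n y hy, BB_eq hd β n y hy0]
    rfl
  have h2 := h1.deriv_eq
  have h3 : deriv (fun y => Complex.exp (L n y)) x = Complex.exp (L n x) * deriv (L n) x :=
    (hLd.hasDerivAt.cexp).deriv
  have h4 : deriv (fun y => y ^ (d ^ n) * P d (n + 1) (cc β y)) x =
      ((d ^ n : ℕ) : ℂ) * x ^ (d ^ n - 1) * P d (n + 1) (cc β x) +
        x ^ (d ^ n) * deriv (fun y => P d (n + 1) (cc β y)) x :=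
    ((hasDerivAt_pow (d ^ n) x).mul hgd.hasDerivAt).deriv
  rw [h3, h4, hL.exp n x hx, BB_eq hd β n x hx0] at h2
  have h5 : x ^ (d ^ n) * P d (n + 1) (x⁻¹ * β x) ≠ 0 := mul_ne_zero (pow_ne_zero _ hx0) hg
  have h6 : deriv (L n) x = (((d ^ n : ℕ) : ℂ) * x ^ (d ^ n - 1) * P d (n + 1) (cc β x) +
        x ^ (d ^ n) * deriv (fun y => P d (n + 1) (cc β y)) x) /
        (x ^ (d ^ n) * P d (n + 1) (x⁻¹ * β x)) := by
    rw [eq_div_iff h5, ← h2]
    ring
  rw [h6]
  show _ / (x ^ (d ^ n) * P d (n + 1) (cc β x)) = _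
  have hN : 1 ≤ d ^ n := Nat.one_le_pow _ _ (by omega)
  obtain ⟨k, hk⟩ := Nat.exists_eq_add_of_le' hN
  rw [hk, Nat.add_sub_cancel, pow_succ]
  field_simp

theorem DD_ge {d : ℕ} (hd : 2 ≤ d) : 1 ≤ DD d := by
  unfold DD
  have h1 : (2 : ℝ) ≤ d := by exact_mod_cast hd
  have h2 : (1 : ℝ) ≤ 42 ^ (d - 1) := one_le_pow₀ (by norm_num)
  nlinarith

theorem t (hLB : St_LB) (hM : St_Mult) : St_Energy := by
  intro d hd
  have hD1 := DD_ge hd
  have hlogD : 0 ≤ Real.log (DD d) := Real.log_nonneg hD1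
  have hpi := Real.pi_pos
  have hl2 : 0 < Real.log 2 := Real.log_pos (by norm_num)
  refine ⟨Real.exp 2 * Real.pi + Real.exp 6 * (12 * Real.pi * Real.exp 6 +
    4 * Real.pi * (Real.log 2 + 3) + 4 * Real.pi * Real.log (DD d)), by positivity, ?_⟩
  intro β L hβ hL n m s hs0 hs1
  have hd0 : (0 : ℝ) < d := by
    have : 0 < d := by omega
    exact_mod_cast this
  have hd1 : (1 : ℝ) ≤ d := by
    have : 1 ≤ d := by omega
    exact_mod_cast this
  set D := DD d with hD
  have hD0 : 0 < D := by linarith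
  set N : ℝ := (d : ℝ) ^ n with hN
  have hN1 : 1 ≤ N := one_le_pow₀ hd1
  have hN0 : 0 < N := by linarith
  set M : ℝ := (d : ℝ) ^ (n + m) with hMd
  have hM1 : 1 ≤ M := one_le_pow₀ hd1
  have hM0 : 0 < M := by linarith
  set R : ℝ := Real.exp (-(3 / M)) with hR
  set ρ : ℝ := Real.exp (-(3 / N)) with hρ
  have hρ0 : 0 < ρ := Real.exp_pos _
  have hR0 : 0 < R := Real.exp_pos _
  have hρ1 : ρ ≤ 1 := by
    rw [hρ, ← Real.exp_zero]
    apply Real.exp_le_exp.mpr
    have : 0 < 3 / N := by positivity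
    linarith
  have hR1 : R < 1 := by
    rw [hR, ← Real.exp_zero]
    apply Real.exp_lt_exp.mpr
    have : 0 < 3 / M := by positivity
    linarith
  -- the two parts
  set Φ : ℂ → ENNReal := fun x =>
    ENNReal.ofReal (‖deriv (L n) x‖ ^ 2 * ‖BB d β n x‖ ^ (-(2 * s))) with hΦ
  set O : Set ℂ := ball 0 R \ ball 0 ρ with hO
  have hOm : MeasurableSet O := measurableSet_ball.diff measurableSet_ball
  have hO1 : O ⊆ ball 0 1 := fun x hx => ball_subset_ball hR1.le hx.1
  have hOn : ∀ x ∈ O, ρ ≤ ‖x‖ ∧ ‖x‖ < R := by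
    intro x hx
    have h1 := hx.1
    have h2 := hx.2
    rw [mem_ball_zero_iff] at h1 h2
    exact ⟨not_lt.mp h2, h1⟩
  have hO0 : (0 : ℂ) ∉ O := by
    intro h
    have := (hOn 0 h).1
    rw [norm_zero] at this
    linarith
  have hsplit : ∫⁻ x in ball (0 : ℂ) R, Φ x ≤
      (∫⁻ x in ball (0 : ℂ) ρ, Φ x) + ∫⁻ x in O, Φ x := by
    refine (lintegral_mono_set ?_).trans (lintegral_union_le Φ _ _)
    intro x hx
    by_cases h : x ∈ ball (0 : ℂ) ρ
    · exact Or.inl h
    · exact Or.inr ⟨hx, h⟩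
  have hexpB : ∀ x ∈ ball (0 : ℂ) 1, ‖BB d β n x‖ = Real.exp (L n x).re := by
    intro x hx
    rw [← hL.exp n x hx, Complex.norm_exp]
  -- inner part
  have hin : ∫⁻ x in ball (0 : ℂ) ρ, Φ x ≤ ENNReal.ofReal (Real.exp 2 * (Real.pi * N)) := by
    have h1 : ∫⁻ x in ball (0 : ℂ) ρ, Φ x ≤
        ∫⁻ x in ball (0 : ℂ) ρ, ENNReal.ofReal (Real.exp 2) * ENNReal.ofReal (‖deriv (L n) x‖ ^ 2) := by
      apply setLIntegral_mono' measurableSet_ball
      intro x hx
      rw [← ENNReal.ofReal_mul (Real.exp_pos _).le]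
      apply ENNReal.ofReal_le_ofReal
      rw [mul_comm]
      apply mul_le_mul_of_nonneg_right _ (by positivity)
      rw [mem_ball_zero_iff] at hx
      have hx1 : x ∈ ball (0 : ℂ) 1 := by
        rw [mem_ball_zero_iff]; linarith
      have hx2 : ‖x‖ ≤ Real.exp (-(1 / N)) := by
        refine hx.le.trans ?_
        rw [hρ]
        apply Real.exp_le_exp.mpr
        have : 1 / N ≤ 3 / N := div_le_div_of_nonneg_right (by norm_num) hN0.le
        linarith
      have h2 := inner_bound hd hL n hx2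
      have h3 : -1 ≤ (L n x).re := by
        have := Complex.abs_re_le_norm (L n x)
        have := neg_abs_le (L n x).re
        linarith
      rw [hexpB x hx1, ← Real.exp_mul]
      apply Real.exp_le_exp.mpr
      nlinarith
    refine h1.trans ?_
    rw [lintegral_const_mul' _ _ ENNReal.ofReal_ne_top, ENNReal.ofReal_mul (Real.exp_pos _).le]
    gcongr
    exact inner (hL.diff n) hN0 (fun z hz => inner_bound hd hL n hz.le)
  -- outer part
  have hNd : ((d ^ n : ℕ) : ℝ) = N := by rw [hN]; push_cast; rfl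
  have hxN : ∀ x ∈ O, Real.exp (-3) ≤ ‖x‖ ^ (d ^ n) := by
    intro x hx
    calc Real.exp (-3) = ρ ^ (d ^ n) := by
          rw [hρ, ← Real.exp_nat_mul, hNd]
          congr 1
          field_simp
      _ ≤ _ := pow_le_pow_left₀ hρ0.le (hOn x hx).1 _
  have hgl : ∀ x ∈ O, 1 / D ^ m ≤ ‖P d (n + 1) (cc β x)‖ := by
    intro x hx
    have hx0 : x ≠ 0 := fun h => hO0 (h ▸ hx)
    have h1 := hLB d β L hd hβ hL n m x hx0 (hOn x hx).2.le
    rw [div_le_iff₀ (by positivity)]
    exact h1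
  have hgu : ∀ x ∈ O, ‖P d (n + 1) (cc β x)‖ ≤ 2 * Real.exp 3 := by
    intro x hx
    have hx0 : x ≠ 0 := fun h => hO0 (h ▸ hx)
    have h1 := AR.BB_le_two hd hβ n (hO1 hx)
    rw [BB_eq hd β n x hx0, norm_mul, norm_pow] at h1
    have h2 := hxN x hx
    have h3 : Real.exp (-3) * ‖P d (n + 1) (cc β x)‖ ≤ 2 := by
      refine le_trans ?_ h1
      exact mul_le_mul_of_nonneg_right h2 (norm_nonneg _)
    have h4 : Real.exp 3 * Real.exp (-3) = 1 := by rw [← Real.exp_add]; simp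
    calc ‖P d (n + 1) (cc β x)‖ = (Real.exp 3 * Real.exp (-3)) * ‖P d (n + 1) (cc β x)‖ := by
          rw [h4, one_mul]
      _ = Real.exp 3 * (Real.exp (-3) * ‖P d (n + 1) (cc β x)‖) := by ring
      _ ≤ Real.exp 3 * 2 := mul_le_mul_of_nonneg_left h3 (Real.exp_pos _).le
      _ = _ := by ring
  have hmult := hM d β n O (1 / D ^ m) (2 * Real.exp 3) hd hβ hOm hO1 hO0 (by positivity)
    (by
      have h1 : 1 / D ^ m ≤ 1 := by
        rw [div_le_one (by positivity)]
        exact one_le_pow₀ hD1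
      have h2 : 1 ≤ Real.exp 3 := Real.one_le_exp (by norm_num)
      linarith)
    (fun x hx => ⟨hgl x hx, hgu x hx⟩)
  have hlog : Real.log (2 * Real.exp 3 / (1 / D ^ m)) = Real.log 2 + 3 + m * Real.log D := by
    rw [div_div_eq_mul_div, div_one, Real.log_mul (by positivity) (by positivity),
      Real.log_mul (by norm_num) (Real.exp_pos _).ne', Real.log_exp, Real.log_pow]
  rw [hlog, ← hN] at hmult
  have hvol : volume O ≤ ENNReal.ofReal (6 * Real.pi / N) := by
    have hO2 : O ⊆ ball 0 1 \ ball 0 ρ := fun x hx => ⟨hO1 hx, hx.2⟩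
    refine (measure_mono hO2).trans ?_
    rw [measure_sdiff (ball_subset_ball hρ1) measurableSet_ball.nullMeasurableSet
      (measure_ball_lt_top).ne, Complex.volume_ball, Complex.volume_ball]
    have e1 : (NNReal.pi : ENNReal) = ENNReal.ofReal Real.pi := by
      rw [← NNReal.coe_real_pi, ENNReal.ofReal_coe_nnreal]
    rw [e1, ← ENNReal.ofReal_pow (by norm_num), ← ENNReal.ofReal_pow hρ0.le,
      ← ENNReal.ofReal_mul (by positivity), ← ENNReal.ofReal_mul (by positivity),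
      ← ENNReal.ofReal_sub _ (by positivity)]
    apply ENNReal.ofReal_le_ofReal
    have h1 : 1 - 6 / N ≤ ρ ^ 2 := by
      rw [hρ, ← Real.exp_nat_mul]
      have h2 := Real.add_one_le_exp (((2 : ℕ) : ℝ) * -(3 / N))
      push_cast at h2 ⊢
      refine le_trans (le_of_eq ?_) h2
      ring
    have h3 : 6 * Real.pi / N = (6 / N) * Real.pi := by ring
    rw [h3]
    nlinarith
  have hout : ∫⁻ x in O, Φ x ≤ ENNReal.ofReal (Real.exp 6 * D ^ (2 * s * (m : ℝ)) *
      (2 * N ^ 2 * Real.exp 6 * (6 * Real.pi / N) +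
        2 * (N * (2 * Real.pi * (Real.log 2 + 3 + m * Real.log D))))) := by
    have hDs : 0 < D ^ (2 * s * (m : ℝ)) := Real.rpow_pos_of_pos hD0 _
    have h1 : ∫⁻ x in O, Φ x ≤ ∫⁻ x in O, ENNReal.ofReal (Real.exp 6 * D ^ (2 * s * (m : ℝ))) *
        (ENNReal.ofReal (2 * N ^ 2 * Real.exp 6) + ENNReal.ofReal 2 * ENNReal.ofReal
          (‖deriv (fun y => P d (n + 1) (cc β y)) x / P d (n + 1) (cc β x)‖ ^ 2)) := by
      apply setLIntegral_mono' hOm
      intro x hx
      have hx0 : x ≠ 0 := fun h => hO0 (h ▸ hx)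
      have hxn : 0 < ‖x‖ := norm_pos_iff.mpr hx0
      rw [← ENNReal.ofReal_mul (by norm_num), ← ENNReal.ofReal_add (by positivity) (by positivity),
        ← ENNReal.ofReal_mul (by positivity)]
      apply ENNReal.ofReal_le_ofReal
      have hgpos : 0 < ‖P d (n + 1) (cc β x)‖ := lt_of_lt_of_le (by positivity) (hgl x hx)
      have hg0 : P d (n + 1) (cc β x) ≠ 0 := norm_pos_iff.mp hgpos
      rw [logder hd hβ hL n (hO1 hx) hx0 hg0]
      set q := deriv (fun y => P d (n + 1) (cc β y)) x / P d (n + 1) (cc β x) with hq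
      have h2 : ‖((d ^ n : ℕ) : ℂ) / x + q‖ ^ 2 ≤ 2 * N ^ 2 * Real.exp 6 + 2 * ‖q‖ ^ 2 := by
        have h3 : ‖((d ^ n : ℕ) : ℂ) / x + q‖ ≤ N / ‖x‖ + ‖q‖ := by
          refine (norm_add_le _ _).trans (le_of_eq ?_)
          rw [norm_div, Complex.norm_natCast, hNd]
        have h4 : N / ‖x‖ ≤ N * Real.exp 3 := by
          rw [div_le_iff₀ hxn]
          have h5 : Real.exp (-3) ≤ ‖x‖ := by
            refine le_trans ?_ (hOn x hx).1
            rw [hρ]
            apply Real.exp_le_exp.mpr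
            have : 3 / N ≤ 3 := div_le_self (by norm_num) hN1
            linarith
          have h6 : Real.exp 3 * Real.exp (-3) = 1 := by rw [← Real.exp_add]; simp
          have h7 : 1 ≤ Real.exp 3 * ‖x‖ := by
            rw [← h6]
            exact mul_le_mul_of_nonneg_left h5 (Real.exp_pos _).le
          calc N = N * 1 := (mul_one _).symm
            _ ≤ N * (Real.exp 3 * ‖x‖) := mul_le_mul_of_nonneg_left h7 hN0.le
            _ = _ := by ring
        have h8 : Real.exp 6 = Real.exp 3 ^ 2 := by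
          rw [← Real.exp_nat_mul]; norm_num
        have h9 : ‖((d ^ n : ℕ) : ℂ) / x + q‖ ≤ N * Real.exp 3 + ‖q‖ := by linarith
        have h10 := norm_nonneg (((d ^ n : ℕ) : ℂ) / x + q)
        rw [h8]
        nlinarith [sq_nonneg (N * Real.exp 3 - ‖q‖)]
      have h3 : ‖BB d β n x‖ ^ (-(2 * s)) ≤ Real.exp 6 * D ^ (2 * s * (m : ℝ)) := by
        have h4 : Real.exp (-3) * (1 / D ^ m) ≤ ‖BB d β n x‖ := by
          rw [BB_eq hd β n x hx0, norm_mul, norm_pow]
          exact mul_le_mul (hxN x hx) (hgl x hx) (by positivity) (by positivity)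
        have h5 : ‖BB d β n x‖ ^ (-(2 * s)) ≤ (Real.exp (-3) * (1 / D ^ m)) ^ (-(2 * s)) :=
          Real.rpow_le_rpow_of_nonpos (by positivity) h4 (by linarith)
        refine h5.trans ?_
        rw [Real.mul_rpow (Real.exp_pos _).le (by positivity), ← Real.exp_mul, one_div,
          Real.inv_rpow (by positivity), ← Real.rpow_neg (by positivity), neg_neg,
          ← Real.rpow_natCast, ← Real.rpow_mul hD0.le, show (m : ℝ) * (2 * s) = 2 * s * m by ring]
        apply mul_le_mul_of_nonneg_right _ hDs.le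
        apply Real.exp_le_exp.mpr
        nlinarith
      calc ‖((d ^ n : ℕ) : ℂ) / x + q‖ ^ 2 * ‖BB d β n x‖ ^ (-(2 * s))
          ≤ (2 * N ^ 2 * Real.exp 6 + 2 * ‖q‖ ^ 2) * (Real.exp 6 * D ^ (2 * s * (m : ℝ))) :=
            mul_le_mul h2 h3 (by positivity) (by positivity)
        _ = _ := by ring
    refine h1.trans ?_
    rw [lintegral_const_mul' _ _ ENNReal.ofReal_ne_top, lintegral_add_left measurable_const,
      lintegral_const_mul' _ _ ENNReal.ofReal_ne_top, setLIntegral_const]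
    have h2 : 0 ≤ Real.log 2 + 3 + m * Real.log D := by positivity
    have e0 : ENNReal.ofReal (Real.exp 6 * D ^ (2 * s * (m : ℝ)) *
      (2 * N ^ 2 * Real.exp 6 * (6 * Real.pi / N) +
        2 * (N * (2 * Real.pi * (Real.log 2 + 3 + m * Real.log D))))) =
        ENNReal.ofReal (Real.exp 6 * D ^ (2 * s * (m : ℝ))) *
        (ENNReal.ofReal (2 * N ^ 2 * Real.exp 6) * ENNReal.ofReal (6 * Real.pi / N) +
          ENNReal.ofReal 2 * ENNReal.ofReal
            (N * (2 * Real.pi * (Real.log 2 + 3 + m * Real.log D)))) := by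
      rw [← ENNReal.ofReal_mul (by positivity), ← ENNReal.ofReal_mul (by positivity),
        ← ENNReal.ofReal_add (by positivity) (by positivity), ← ENNReal.ofReal_mul (by positivity)]
    rw [e0]
    gcongr
  refine hsplit.trans ((add_le_add hin hout).trans ?_)
  have hDs : 0 < D ^ (2 * s * (m : ℝ)) := Real.rpow_pos_of_pos hD0 _
  have hDs1 : 1 ≤ D ^ (2 * s * (m : ℝ)) := Real.one_le_rpow hD1 (by positivity)
  rw [← ENNReal.ofReal_add (by positivity) (by positivity)]
  apply ENNReal.ofReal_le_ofReal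
  have hm0 : (0 : ℝ) ≤ m := by positivity
  set X := D ^ (2 * s * (m : ℝ)) with hX
  have e1 : 2 * N ^ 2 * Real.exp 6 * (6 * Real.pi / N) = N * (12 * Real.pi * Real.exp 6) := by
    field_simp
    ring
  rw [e1]
  have k1 : Real.exp 2 * (Real.pi * N) ≤ (Real.exp 2 * Real.pi) * N * ((m : ℝ) + 1) * X := by
    have h1 : 1 ≤ ((m : ℝ) + 1) * X := by nlinarith
    calc Real.exp 2 * (Real.pi * N) = (Real.exp 2 * Real.pi * N) * 1 := by ring
      _ ≤ (Real.exp 2 * Real.pi * N) * (((m : ℝ) + 1) * X) :=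
          mul_le_mul_of_nonneg_left h1 (by positivity)
      _ = _ := by ring
  have k2 : N * (12 * Real.pi * Real.exp 6) + 2 * (N * (2 * Real.pi *
      (Real.log 2 + 3 + m * Real.log D))) ≤ (12 * Real.pi * Real.exp 6 +
        4 * Real.pi * (Real.log 2 + 3) + 4 * Real.pi * Real.log D) * N * ((m : ℝ) + 1) := by
    have h1 : 0 ≤ (12 * Real.pi * Real.exp 6) * N * m := by positivity
    have h2 : 0 ≤ (4 * Real.pi * (Real.log 2 + 3)) * N * m := by positivity
    have h3 : 0 ≤ (4 * Real.pi * Real.log D) * N := by positivity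
    linarith
  have k3 : Real.exp 6 * X * (N * (12 * Real.pi * Real.exp 6) + 2 * (N * (2 * Real.pi *
      (Real.log 2 + 3 + m * Real.log D)))) ≤ Real.exp 6 * X * ((12 * Real.pi * Real.exp 6 +
        4 * Real.pi * (Real.log 2 + 3) + 4 * Real.pi * Real.log D) * N * ((m : ℝ) + 1)) :=
    mul_le_mul_of_nonneg_left k2 (by positivity)
  linarith

end Pool.Agent.Y488.TY.Energy
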